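import Pool.Agent.N207.GQ.Stm

/-!
# GQ/MAT: matrices of multiplication and a second embedding
-/

set_option autoImplicit false

open Polynomial

namespace Pool.Agent.N232.GQ

open scoped TensorProduct

/-- a singular linear combination of multiplications gives a second embedding -/
theorem mat_emb {F0 L Ω : Type} [Field F0] [Field L] [Algebra F0 L] [Field Ω] [IsAlgClosed Ω] {n : ℕ}
    (β : Module.Basis (Fin n) F0 L) (φ : L →+* Ω) {Λ : Type} [Fintype Λ] (m : Λ → L) (c : Λ → Ω)
    (hdet : Matrix.det (∑ l, c l • (Algebra.leftMulMatrix β (m l)).map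
      (φ.comp (algebraMap F0 L))) = 0) :
    ∃ τ : L →+* Ω, (∀ x : F0, τ (algebraMap F0 L x) = φ (algebraMap F0 L x)) ∧
      ∑ l, c l * τ (m l) = 0 := by
  classical
  let _ : Algebra F0 Ω := (φ.comp (algebraMap F0 L)).toAlgebra
  have hmap : ∀ x : F0, algebraMap F0 Ω x = φ (algebraMap F0 L x) := fun x => rfl
  obtain ⟨w, hw, hZ⟩ := Matrix.exists_mulVec_eq_zero_iff.2 hdet
  let T := Ω ⊗[F0] L
  let B : Module.Basis (Fin n) Ω T := Algebra.TensorProduct.basis Ω β
  have hB : ∀ i, B i = (1 : Ω) ⊗ₜ[F0] β i := fun i => Algebra.TensorProduct.basis_apply β i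
  obtain ⟨z, hz⟩ : ∃ z : T, z = ∑ l, c l ⊗ₜ[F0] m l := ⟨_, rfl⟩
  obtain ⟨y, hy⟩ : ∃ y : T, y = ∑ i, w i • B i := ⟨_, rfl⟩
  have hy0 : y ≠ 0 := by
    intro h
    apply hw
    have h1 := (Fintype.linearIndependent_iff.1 B.linearIndependent) w (by rw [← hy]; exact h)
    exact funext h1
  have aux : ∀ (x y : Ω) (a : F0) (v : L), y • (x ⊗ₜ[F0] (a • v) : T) =
      (x * algebraMap F0 Ω a * y) • ((1 : Ω) ⊗ₜ[F0] v : T) := by
    intro x y a v
    rw [TensorProduct.tmul_smul, TensorProduct.smul_tmul', TensorProduct.smul_tmul',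
      TensorProduct.smul_tmul', Algebra.smul_def a x, smul_eq_mul, smul_eq_mul]
    congr 1
    ring
  have hzy : z * y = 0 := by
    have e1 : ∀ l j, (c l ⊗ₜ[F0] m l : T) * (w j • B j) =
        ∑ i, (c l * algebraMap F0 Ω (Algebra.leftMulMatrix β (m l) i j) * w j) • B i := by
      intro l j
      have e2 : m l * β j = ∑ i, Algebra.leftMulMatrix β (m l) i j • β i := by
        conv_lhs => rw [← β.sum_repr (m l * β j)]
        refine Finset.sum_congr rfl fun i _ => ?_
        rw [Algebra.leftMulMatrix_eq_repr_mul]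
      rw [hB, mul_smul_comm, Algebra.TensorProduct.tmul_mul_tmul, mul_one, e2,
        TensorProduct.tmul_sum, Finset.smul_sum]
      refine Finset.sum_congr rfl fun i _ => ?_
      rw [hB]
      exact aux _ _ _ _
    rw [hz, hy, Finset.sum_mul_sum]
    simp_rw [e1]
    have e3 : ∑ l, ∑ j, ∑ i,
        (c l * algebraMap F0 Ω (Algebra.leftMulMatrix β (m l) i j) * w j) • B i =
        ∑ i, (Matrix.mulVec (∑ l, c l • (Algebra.leftMulMatrix β (m l)).map
          (φ.comp (algebraMap F0 L))) w i) • B i := by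
      have e4 : ∀ l, ∑ j, ∑ i,
          (c l * algebraMap F0 Ω (Algebra.leftMulMatrix β (m l) i j) * w j) • B i =
          ∑ i, ∑ j, (c l * algebraMap F0 Ω (Algebra.leftMulMatrix β (m l) i j) * w j) • B i :=
        fun l => Finset.sum_comm
      simp_rw [e4]
      rw [Finset.sum_comm]
      refine Finset.sum_congr rfl fun i _ => ?_
      rw [Matrix.mulVec, dotProduct, Finset.sum_smul, Finset.sum_comm]
      refine Finset.sum_congr rfl fun j _ => ?_
      rw [Matrix.sum_apply, Finset.sum_mul, Finset.sum_smul]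
      rfl
    rw [e3, hZ]
    simp
  have hnu : ¬ IsUnit z := by
    intro h
    exact hy0 ((h.mul_right_eq_zero).1 hzy)
  obtain ⟨I, hI, hzI⟩ := exists_max_ideal_of_mem_nonunits (a := z) hnu
  let _ : Field (T ⧸ I) := Ideal.Quotient.field I
  have : Module.Finite Ω T := Module.Finite.of_basis B
  have : Module.Finite Ω (T ⧸ I) := inferInstance
  have hbij : Function.Bijective (algebraMap Ω (T ⧸ I)) :=
    IsAlgClosed.algebraMap_bijective_of_isIntegral
  let e : Ω ≃+* (T ⧸ I) := RingEquiv.ofBijective (algebraMap Ω (T ⧸ I)) hbij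
  have he : ∀ x, e x = algebraMap Ω (T ⧸ I) x := fun x => rfl
  let inc : L →+* T := (Algebra.TensorProduct.includeRight : L →ₐ[F0] T).toRingHom
  have hinc : ∀ x, inc x = (1 : Ω) ⊗ₜ[F0] x := fun x => rfl
  let τ : L →+* Ω := (e.symm : (T ⧸ I) →+* Ω).comp ((Ideal.Quotient.mk I).comp inc)
  have hτ : ∀ x, algebraMap Ω (T ⧸ I) (τ x) = Ideal.Quotient.mk I ((1 : Ω) ⊗ₜ[F0] x) := by
    intro x
    rw [← he]
    exact e.apply_symm_apply _
  have halg : ∀ x : Ω, algebraMap Ω (T ⧸ I) x = Ideal.Quotient.mk I (x ⊗ₜ[F0] (1 : L)) :=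
    fun x => rfl
  refine ⟨τ, fun x => ?_, ?_⟩
  · apply hbij.1
    rw [hτ, halg, ← hmap]
    congr 1
    rw [Algebra.algebraMap_eq_smul_one, TensorProduct.tmul_smul, Algebra.algebraMap_eq_smul_one,
      TensorProduct.smul_tmul']
  · apply hbij.1
    rw [map_sum, map_zero]
    have e5 : ∀ l, algebraMap Ω (T ⧸ I) (c l * τ (m l)) = Ideal.Quotient.mk I (c l ⊗ₜ[F0] m l) := by
      intro l
      rw [map_mul, hτ, halg, ← map_mul, Algebra.TensorProduct.tmul_mul_tmul, mul_one, one_mul]
    simp_rw [e5]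
    rw [← map_sum, ← hz]
    exact Ideal.Quotient.eq_zero_iff_mem.2 hzI

/-- a basis in a spanning set which contains 1 -/
theorem exists_basis {F0 L : Type} [Field F0] [Field L] [Algebra F0 L] [FiniteDimensional F0 L]
    (V : Set L) (h1 : (1 : L) ∈ V) (hV : Submodule.span F0 V = ⊤) :
    ∃ (r : ℕ) (β : Module.Basis (Fin (r + 1)) F0 L), β 0 = 1 ∧ ∀ i, β i ∈ V := by
  classical
  have hli : LinearIndepOn F0 id ({1} : Set L) := by
    rw [linearIndepOn_singleton_iff]
    exact one_ne_zero
  obtain ⟨s, hsV, h1s, hVs, hs⟩ := exists_linearIndepOn_extension hli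
    (Set.singleton_subset_iff.2 h1)
  have hs' : LinearIndependent F0 ((↑) : s → L) := hs
  have hVs' : V ⊆ Submodule.span F0 s := by simpa using hVs
  have hspan : ⊤ ≤ Submodule.span F0 (Set.range ((↑) : s → L)) := by
    rw [Subtype.range_coe, ← hV]
    exact Submodule.span_le.2 hVs'
  let β0 : Module.Basis s F0 L := Module.Basis.mk hs' hspan
  have hβ0 : ∀ i : s, β0 i = i := fun i => Module.Basis.mk_apply hs' hspan i
  have hfin : Finite s := hs'.finite
  let _ : Fintype s := Fintype.ofFinite s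
  have h1m : (1 : L) ∈ s := h1s rfl
  have hcard : 0 < Fintype.card s := Fintype.card_pos_iff.2 ⟨⟨1, h1m⟩⟩
  obtain ⟨r, hr⟩ : ∃ r, Fintype.card s = r + 1 := ⟨Fintype.card s - 1, by omega⟩
  let e1 : s ≃ Fin (r + 1) := Fintype.equivFinOfCardEq hr
  let e2 : s ≃ Fin (r + 1) := e1.trans (Equiv.swap (e1 ⟨1, h1m⟩) 0)
  refine ⟨r, β0.reindex e2, ?_, fun i => ?_⟩
  · rw [Module.Basis.reindex_apply, hβ0]
    have : e2.symm 0 = ⟨1, h1m⟩ := by
      rw [Equiv.symm_apply_eq]
      simp [e2]
    rw [this]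
  · rw [Module.Basis.reindex_apply, hβ0]
    exact hsV (e2.symm i).2

theorem mat : Pool.Agent.N207.GQ.StmMat := by
  classical
  intro A L _ _ _ _ _ σ Λ _ _ F hfrac lm
  have hAL : Function.Injective (algebraMap A L) := FaithfulSMul.algebraMap_injective A L
  -- the transcendence basis
  have halg0 : Algebra.IsAlgebraic (Algebra.adjoin A (Set.range F)) L := by
    refine ⟨fun l => ?_⟩
    obtain ⟨p, q, hq, hl⟩ := hfrac l
    have hmem : ∀ p : MvPolynomial σ A, MvPolynomial.aeval F p ∈ Algebra.adjoin A (Set.range F) := by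
      intro p
      rw [Algebra.adjoin_range_eq_range_aeval]
      exact ⟨p, rfl⟩
    refine ⟨C ⟨_, hmem q⟩ * X - C ⟨_, hmem p⟩, ?_, ?_⟩
    · intro h
      have h1 := congrArg (fun r => Polynomial.coeff r 1) h
      simp only [coeff_sub, coeff_C_mul, coeff_X_one, mul_one, coeff_C_succ, sub_zero, coeff_zero] at h1
      exact hq (congrArg Subtype.val h1)
    · rw [map_sub, map_mul, aeval_C, aeval_X, aeval_C, sub_eq_zero]
      exact hl
  obtain ⟨t, ht, htb⟩ := exists_isTranscendenceBasis_subset (R := A) (Set.range F)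
  have hfinI : Finite t := (Set.finite_range F).subset ht
  let finI : Fintype t := Fintype.ofFinite t
  choose ι hι using fun x : t => ht x.2
  have hfι : F ∘ ι = ((↑) : t → L) := funext hι
  rw [← hfι] at htb
  let S := MvPolynomial t A
  let algS : Algebra S L := (MvPolynomial.aeval (F ∘ ι) : MvPolynomial t A →ₐ[A] L).toRingHom.toAlgebra
  have hmapS : ∀ p : S, algebraMap S L p = MvPolynomial.aeval (F ∘ ι) p := fun p => rfl
  have hSinj : Function.Injective (algebraMap S L) := htb.1
  have : FaithfulSMul S L := (faithfulSMul_iff_algebraMap_injective S L).2 hSinj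
  -- algebraic
  have halg1 : Algebra.IsAlgebraic S L := by
    have h1 := htb.isAlgebraic
    refine ⟨fun l => ?_⟩
    have h2 : IsAlgebraic (Algebra.adjoin A (Set.range (F ∘ ι))) l := h1.isAlgebraic l
    exact h2.ringHom_of_comp_eq (htb.1.aevalEquiv.symm : _ →+* S) (RingHom.id L)
      (htb.1.aevalEquiv.symm.injective) (by
        ext y
        obtain ⟨z, rfl⟩ := htb.1.aevalEquiv.surjective y
        simp only [RingHom.comp_apply]
        change algebraMap S L (htb.1.aevalEquiv.symm (htb.1.aevalEquiv z)) = _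
        rw [AlgEquiv.symm_apply_apply, hmapS]
        exact (htb.1.algebraMap_aevalEquiv z).symm)
  -- the fraction field
  let F0 := FractionRing S
  let algF0 : Algebra F0 L := FractionRing.liftAlgebra S L
  have tow : IsScalarTower S F0 L := FractionRing.isScalarTower_liftAlgebra S L
  have halg2 : Algebra.IsAlgebraic F0 L := (IsFractionRing.comap_isAlgebraic_iff (A := S)).1 halg1
  have hSF : ∀ p : S, algebraMap F0 L (algebraMap S F0 p) = algebraMap S L p := fun p =>
    (IsScalarTower.algebraMap_apply S F0 L p).symm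
  have hA : ∀ a : A, algebraMap A L a = algebraMap F0 L (algebraMap S F0 (MvPolynomial.C a)) := by
    intro a
    rw [hSF, hmapS]
    exact (MvPolynomial.aeval_C (F ∘ ι) a).symm
  have hadj : ∀ (E : IntermediateField F0 L), (∀ i, F i ∈ E) →
      ∀ p : MvPolynomial σ A, MvPolynomial.aeval F p ∈ E := by
    intro E hE p
    induction p using MvPolynomial.induction_on with
    | C a =>
      rw [MvPolynomial.aeval_C, hA]
      exact E.algebraMap_mem _
    | add p q hp hq => rw [map_add]; exact E.add_mem hp hq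
    | mul_X p i hp => rw [map_mul, MvPolynomial.aeval_X]; exact E.mul_mem hp (hE i)
  have htop : IntermediateField.adjoin F0 (Set.range F) = ⊤ := by
    rw [eq_top_iff]
    intro l _
    obtain ⟨p, q, hq, hl⟩ := hfrac l
    have hE : ∀ i, F i ∈ IntermediateField.adjoin F0 (Set.range F) := fun i =>
      IntermediateField.subset_adjoin _ _ ⟨i, rfl⟩
    have : l = MvPolynomial.aeval F p / MvPolynomial.aeval F q := by
      rw [eq_div_iff hq, mul_comm]; exact hl
    rw [this]
    exact IntermediateField.div_mem _ (hadj _ hE p) (hadj _ hE q)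
  have hadjA : Algebra.adjoin F0 (Set.range F) = ⊤ := by
    rw [← IntermediateField.adjoin_toSubalgebra_of_isAlgebraic (fun x _ => halg2.isAlgebraic x), htop,
      IntermediateField.top_toSubalgebra]
  have hfd : FiniteDimensional F0 L := by
    have h1 : FiniteDimensional F0 (IntermediateField.adjoin F0 (Set.range F)) :=
      IntermediateField.finiteDimensional_adjoin fun x _ => (halg2.isAlgebraic x).isIntegral
    rw [htop] at h1
    exact Module.Finite.equiv (IntermediateField.topEquiv (F := F0) (E := L)).toLinearEquiv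
  -- the basis
  obtain ⟨V, hV⟩ : ∃ V : Set L, V = Set.range (fun p : MvPolynomial σ A => MvPolynomial.aeval F p) :=
    ⟨_, rfl⟩
  have h1V : (1 : L) ∈ V := by rw [hV]; exact ⟨1, map_one _⟩
  have hspan : Submodule.span F0 V = ⊤ := by
    have h1 := congrArg Subalgebra.toSubmodule hadjA
    rw [Algebra.adjoin_eq_span, Algebra.top_toSubmodule] at h1
    rw [eq_top_iff, ← h1]
    refine Submodule.span_mono ?_
    have h2 : Submonoid.closure (Set.range F) ≤
        ((MvPolynomial.aeval F : MvPolynomial σ A →ₐ[A] L).range.toSubsemiring.toSubmonoid) := by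
      rw [Submonoid.closure_le]
      rintro _ ⟨i, rfl⟩
      exact ⟨MvPolynomial.X i, MvPolynomial.aeval_X F i⟩
    intro x hx
    rw [hV]
    exact h2 hx
  obtain ⟨r, β, hβ0, hβV⟩ := exists_basis V h1V hspan
  rw [hV] at hβV
  choose bb hbb using hβV
  obtain ⟨b, hb⟩ : ∃ b : Fin (r + 1) → MvPolynomial σ A, b = fun i => if i = 0 then 1 else bb i :=
    ⟨_, rfl⟩
  have hb0 : b 0 = 1 := by rw [hb]; simp
  have hbβ : ∀ i, MvPolynomial.aeval F (b i) = β i := by
    intro i
    rw [hb]
    by_cases hi : i = 0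
    · simp only [hi, if_true]
      rw [map_one, hβ0]
    · simp only [hi, if_false]
      exact hbb i
  -- the matrices
  obtain ⟨D0, hD0⟩ := IsLocalization.exist_integer_multiples_of_finite (nonZeroDivisors S)
    (fun x : Λ × Fin (r + 1) × Fin (r + 1) =>
      Algebra.leftMulMatrix β (MvPolynomial.aeval F (lm x.1)) x.2.1 x.2.2)
  choose N0 hN0 using hD0
  obtain ⟨N, hN⟩ : ∃ N : Λ → Matrix (Fin (r + 1)) (Fin (r + 1)) S,
    N = fun l => Matrix.of fun i j => N0 (l, i, j) := ⟨_, rfl⟩
  have hNM : ∀ l i j, algebraMap S F0 (N l i j) =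
      algebraMap S F0 D0 * Algebra.leftMulMatrix β (MvPolynomial.aeval F (lm l)) i j := by
    intro l i j
    rw [hN]
    exact (hN0 (l, i, j)).trans (Algebra.smul_def _ _)
  have hD : (D0 : S) ≠ 0 := nonZeroDivisors.ne_zero D0.2
  refine ⟨t, finI, inferInstance, ι, r, b, (D0 : S), N, htb.1, hD, hb0, ?_, ?_⟩
  · intro l j
    rw [hbβ]
    simp_rw [hbβ]
    have e2 : MvPolynomial.aeval F (lm l) * β j =
        ∑ i, Algebra.leftMulMatrix β (MvPolynomial.aeval F (lm l)) i j • β i := by
      conv_lhs => rw [← β.sum_repr (MvPolynomial.aeval F (lm l) * β j)]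
      refine Finset.sum_congr rfl fun i _ => ?_
      rw [Algebra.leftMulMatrix_eq_repr_mul]
    rw [mul_assoc, e2, Finset.mul_sum]
    refine Finset.sum_congr rfl fun i _ => ?_
    rw [← hmapS, ← hmapS, ← hSF, ← hSF, hNM, map_mul, Algebra.smul_def]
    ring
  · intro Ω _ _ φ c hdet
    have hφD : φ (algebraMap S L (D0 : S)) ≠ 0 := by
      rw [map_ne_zero_iff φ φ.injective, map_ne_zero_iff _ hSinj]
      exact hD
    have hmat : (∑ l, c l • (N l).map fun p => φ (MvPolynomial.aeval (F ∘ ι) p)) =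
        φ (algebraMap S L (D0 : S)) • ∑ l, c l •
          (Algebra.leftMulMatrix β (MvPolynomial.aeval F (lm l))).map
            (φ.comp (algebraMap F0 L)) := by
      rw [Finset.smul_sum]
      refine Finset.sum_congr rfl fun l _ => ?_
      ext i j
      simp only [Matrix.smul_apply, Matrix.map_apply, smul_eq_mul, RingHom.comp_apply]
      have e3 : MvPolynomial.aeval (F ∘ ι) (N l i j) = algebraMap S L (D0 : S) *
          algebraMap F0 L (Algebra.leftMulMatrix β (MvPolynomial.aeval F (lm l)) i j) := by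
        rw [← hmapS, ← hSF, hNM, map_mul, hSF]
      rw [e3, map_mul]
      ring
    rw [hmat, Matrix.det_smul] at hdet
    have hdet2 := (mul_eq_zero.1 hdet).resolve_left (pow_ne_zero _ hφD)
    obtain ⟨τ, hτ1, hτ2⟩ := mat_emb β φ (fun l => MvPolynomial.aeval F (lm l)) c hdet2
    refine ⟨τ, fun a => ?_, hτ2⟩
    rw [hA, hτ1]

end Pool.Agent.N232.GQ
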